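import Pool.Agent.PP72.Bridge

/-!
# Slopes of sectors with a packing polynomial are algebraic or upper semicomputable

If a real polynomial maps the lattice points of the sector `0 ≤ y ≤ α x` injectively into
`{0, 1, 2, …}` and misses only finitely many of these numbers, then `α` is algebraic or the set of
pairs `(a, b)` with `α a < b` is recursively enumerable. Proof: the polynomial `F` has rational
coefficients. If its top form does not vanish at `(1, α)`, then, just above the ray of slope `α`,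
it takes (at suitable lattice points) large natural values, which it also takes in the sector; so
`α a < b` iff `F P = F Q` for two different lattice points `P`, `Q` of slope at most `b / a`.
-/

open MvPolynomial

namespace PK5

/-! ### computability of the values -/

theorem primrec_eval (A : MvPolynomial (Fin 2) ℕ) :
    Primrec fun p : ℕ × ℕ => MvPolynomial.eval ![p.1, p.2] A := by
  induction A using MvPolynomial.induction_on with
  | C a => simpa using Primrec.const a
  | add A B hA hB =>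
    have : (fun p : ℕ × ℕ => MvPolynomial.eval ![p.1, p.2] (A + B)) = fun p =>
        MvPolynomial.eval ![p.1, p.2] A + MvPolynomial.eval ![p.1, p.2] B := by
      funext p; simp
    rw [this]
    exact Primrec.nat_add.comp hA hB
  | mul_X A i hA =>
    have : (fun p : ℕ × ℕ => MvPolynomial.eval ![p.1, p.2] (A * X i)) = fun p =>
        MvPolynomial.eval ![p.1, p.2] A * (![p.1, p.2] i) := by
      funext p; simp
    rw [this]
    refine Primrec.nat_mul.comp hA ?_
    fin_cases i
    · exact Primrec.fst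
    · exact Primrec.snd

/-- the search predicate -/
def Test (A B : MvPolynomial (Fin 2) ℕ) (p : ℕ × ℕ) (c : (ℕ × ℕ) × (ℕ × ℕ)) : Prop :=
  (p.1 = 0 ∧ 0 < p.2) ∨ (0 < p.1 ∧ c.1 ≠ c.2 ∧ c.1.2 * p.1 ≤ p.2 * c.1.1 ∧
    c.2.2 * p.1 ≤ p.2 * c.2.1 ∧
    MvPolynomial.eval ![c.1.1, c.1.2] A + MvPolynomial.eval ![c.2.1, c.2.2] B =
      MvPolynomial.eval ![c.2.1, c.2.2] A + MvPolynomial.eval ![c.1.1, c.1.2] B)

noncomputable instance (A B : MvPolynomial (Fin 2) ℕ) (p : ℕ × ℕ) (c : (ℕ × ℕ) × (ℕ × ℕ)) :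
    Decidable (Test A B p c) := Classical.dec _

theorem primrecPred_test (A B : MvPolynomial (Fin 2) ℕ) :
    PrimrecPred fun x : (ℕ × ℕ) × ((ℕ × ℕ) × (ℕ × ℕ)) => Test A B x.1 x.2 := by
  have p1 : Primrec fun x : (ℕ × ℕ) × ((ℕ × ℕ) × (ℕ × ℕ)) => x.1.1 :=
    Primrec.fst.comp Primrec.fst
  have p2 : Primrec fun x : (ℕ × ℕ) × ((ℕ × ℕ) × (ℕ × ℕ)) => x.1.2 :=
    Primrec.snd.comp Primrec.fst
  have c1 : Primrec fun x : (ℕ × ℕ) × ((ℕ × ℕ) × (ℕ × ℕ)) => x.2.1 :=
    Primrec.fst.comp Primrec.snd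
  have c2 : Primrec fun x : (ℕ × ℕ) × ((ℕ × ℕ) × (ℕ × ℕ)) => x.2.2 :=
    Primrec.snd.comp Primrec.snd
  have c11 := Primrec.fst.comp c1
  have c12 := Primrec.snd.comp c1
  have c21 := Primrec.fst.comp c2
  have c22 := Primrec.snd.comp c2
  have eA1 := (primrec_eval A).comp c1
  have eA2 := (primrec_eval A).comp c2
  have eB1 := (primrec_eval B).comp c1
  have eB2 := (primrec_eval B).comp c2
  unfold Test
  refine PrimrecPred.or (PrimrecPred.and ?_ ?_) (PrimrecPred.and ?_ (PrimrecPred.and ?_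
    (PrimrecPred.and ?_ (PrimrecPred.and ?_ ?_))))
  · exact Primrec.eq.comp p1 (Primrec.const 0)
  · exact Primrec.nat_lt.comp (Primrec.const 0) p2
  · exact Primrec.nat_lt.comp (Primrec.const 0) p1
  · exact (Primrec.eq.comp c1 c2).not
  · exact Primrec.nat_le.comp (Primrec.nat_mul.comp c12 p1) (Primrec.nat_mul.comp p2 c11)
  · exact Primrec.nat_le.comp (Primrec.nat_mul.comp c22 p1) (Primrec.nat_mul.comp p2 c21)
  · exact Primrec.eq.comp (Primrec.nat_add.comp eA1 eB2) (Primrec.nat_add.comp eA2 eB1)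

theorem rePred_test (A B : MvPolynomial (Fin 2) ℕ) :
    REPred fun p : ℕ × ℕ => ∃ c, Test A B p c := by
  classical
  have h1 : PrimrecPred fun x : (ℕ × ℕ) × ℕ =>
      Test A B x.1 (Denumerable.ofNat ((ℕ × ℕ) × (ℕ × ℕ)) x.2) :=
    (primrecPred_test A B).comp (Primrec.pair Primrec.fst ((Primrec.ofNat _).comp Primrec.snd))
  have h2 : Partrec fun p : ℕ × ℕ => Nat.rfind fun n =>
      Part.some (decide (Test A B p (Denumerable.ofNat ((ℕ × ℕ) × (ℕ × ℕ)) n))) :=
    Partrec.rfind h1.computablePred.decide.partrec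
  refine h2.dom_re.of_eq fun p => ?_
  rw [Nat.rfind_dom]
  constructor
  · rintro ⟨n, hn, _⟩
    exact ⟨_, by simpa using hn⟩
  · rintro ⟨c, hc⟩
    have he : Denumerable.ofNat ((ℕ × ℕ) × (ℕ × ℕ)) (Encodable.encode c) = c :=
      Denumerable.ofNat_encode c
    refine ⟨Encodable.encode c, ?_, fun _ => trivial⟩
    rw [he]
    exact Part.mem_some_iff.2 (decide_eq_true hc).symm

/-- polynomials of degree at most `d` that agree on a grid are equal -/
theorem eq_of_grid {F G : MvPolynomial (Fin 2) ℝ} {d N : ℕ} (hF : F.totalDegree ≤ d)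
    (hG : G.totalDegree ≤ d)
    (h : ∀ i ≤ d, ∀ j ≤ d, MvPolynomial.eval ![((N + i : ℕ) : ℝ), (j : ℝ)] F =
      MvPolynomial.eval ![((N + i : ℕ) : ℝ), (j : ℝ)] G) : F = G := by
  rw [← sub_eq_zero]
  have hdeg : (F - G).totalDegree ≤ d := (totalDegree_sub _ _).trans (max_le hF hG)
  refine MvPolynomial.eq_zero_of_eval_zero_at_prod_finset (F - G)
    ![(Finset.range (d + 1)).image fun i : ℕ => ((N + i : ℕ) : ℝ),
      (Finset.range (d + 1)).image fun j : ℕ => (j : ℝ)] ?_ ?_
  · intro i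
    have hc : (F - G).degreeOf i < d + 1 :=
      Nat.lt_succ_of_le ((degreeOf_le_totalDegree _ _).trans hdeg)
    fin_cases i
    · show (F - G).degreeOf 0 < ((Finset.range (d + 1)).image fun i : ℕ => ((N + i : ℕ) : ℝ)).card
      have hi : Function.Injective fun i : ℕ => ((N + i : ℕ) : ℝ) := by
        intro a b hab
        have h2 : N + a = N + b := Nat.cast_injective (R := ℝ) hab
        omega
      rw [Finset.card_image_of_injective _ hi, Finset.card_range]
      exact hc
    · show (F - G).degreeOf 1 < ((Finset.range (d + 1)).image fun j : ℕ => (j : ℝ)).card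
      rw [Finset.card_image_of_injective _ Nat.cast_injective, Finset.card_range]
      exact hc
  · intro x hx
    have h0 := hx 0
    have h1 := hx 1
    simp only [Matrix.cons_val_zero, Matrix.cons_val_one, Finset.mem_image, Finset.mem_range] at h0 h1
    obtain ⟨i, hi, hi'⟩ := h0
    obtain ⟨j, hj, hj'⟩ := h1
    have hxe : x = ![((N + i : ℕ) : ℝ), (j : ℝ)] := by
      ext k
      fin_cases k
      · exact hi'.symm
      · exact hj'.symm
    rw [hxe, map_sub, h i (by omega) j (by omega), sub_self]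

/-- a real polynomial with natural values on the lattice points of the sector has rational
coefficients -/
theorem exists_rat {α : ℝ} (hα : 0 < α) (F : MvPolynomial (Fin 2) ℝ)
    (hval : ∀ x y : ℕ, (y : ℝ) ≤ α * x → ∃ n : ℕ, MvPolynomial.eval ![(x : ℝ), (y : ℝ)] F = n) :
    ∃ G : MvPolynomial (Fin 2) ℚ, MvPolynomial.map (algebraMap ℚ ℝ) G = F := by
  classical
  obtain ⟨φ, hφ⟩ := LinearMap.exists_leftInverse_of_injective (Algebra.linearMap ℚ ℝ)
    (LinearMap.ker_eq_bot.2 (algebraMap ℚ ℝ).injective)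
  have hφ' : ∀ q : ℚ, φ (q : ℝ) = q := fun q => by
    have := LinearMap.congr_fun hφ q
    simpa using this
  set G : MvPolynomial (Fin 2) ℚ := ∑ m ∈ F.support, monomial m (φ (F.coeff m)) with hG
  have hev : ∀ x y : ℕ, MvPolynomial.eval ![(x : ℚ), (y : ℚ)] G =
      φ (MvPolynomial.eval ![(x : ℝ), (y : ℝ)] F) := by
    intro x y
    rw [hG, map_sum, MvPolynomial.eval_eq', map_sum]
    refine Finset.sum_congr rfl fun m _ => ?_
    rw [MvPolynomial.eval_monomial, Finsupp.prod_fintype _ _ (by simp), Fin.prod_univ_two,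
      Fin.prod_univ_two]
    have h1 : F.coeff m * ((![(x : ℝ), (y : ℝ)] 0) ^ (m 0) * (![(x : ℝ), (y : ℝ)] 1) ^ (m 1)) =
        ((x : ℚ) ^ (m 0) * (y : ℚ) ^ (m 1)) • F.coeff m := by
      rw [Algebra.smul_def]
      simp [mul_comm]
    rw [h1, map_smul, smul_eq_mul]
    simp [mul_comm]
  refine ⟨G, ?_⟩
  refine eq_of_grid (d := F.totalDegree) (N := ⌈(F.totalDegree : ℝ) / α⌉₊) ?_ le_rfl ?_
  · have h0 : MvPolynomial.map (algebraMap ℚ ℝ) G =
        ∑ m ∈ F.support, monomial m ((φ (F.coeff m) : ℚ) : ℝ) := by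
      rw [hG, map_sum]
      refine Finset.sum_congr rfl fun m _ => ?_
      rw [MvPolynomial.map_monomial]
      rfl
    rw [h0]
    refine MvPolynomial.totalDegree_finsetSum_le fun m hm => ?_
    exact (MvPolynomial.totalDegree_monomial_le _ _).trans (MvPolynomial.le_totalDegree hm)
  · intro i _ j hj
    have hin : ((j : ℕ) : ℝ) ≤ α * ((⌈(F.totalDegree : ℝ) / α⌉₊ + i : ℕ) : ℝ) := by
      have h1 : (j : ℝ) ≤ F.totalDegree := by exact_mod_cast hj
      have h2 : (F.totalDegree : ℝ) / α ≤ ⌈(F.totalDegree : ℝ) / α⌉₊ := Nat.le_ceil _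
      have h3 : (F.totalDegree : ℝ) ≤ α * ⌈(F.totalDegree : ℝ) / α⌉₊ := by
        rwa [div_le_iff₀' hα] at h2
      have h4 : (⌈(F.totalDegree : ℝ) / α⌉₊ : ℝ) ≤ ((⌈(F.totalDegree : ℝ) / α⌉₊ + i : ℕ) : ℝ) := by
        push_cast; linarith [(Nat.cast_nonneg i : (0:ℝ) ≤ (i : ℝ))]
      exact (h1.trans h3).trans (mul_le_mul_of_nonneg_left h4 hα.le)
    obtain ⟨n, hn⟩ := hval _ _ hin
    have h5 := hev (⌈(F.totalDegree : ℝ) / α⌉₊ + i) j
    rw [hn] at h5 ⊢
    have h6 : φ (n : ℝ) = n := by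
      have := hφ' n
      simpa using this
    rw [h6] at h5
    rw [MvPolynomial.eval_map, ← MvPolynomial.coe_eval₂Hom, ]
    have h7 : (MvPolynomial.eval₂Hom (algebraMap ℚ ℝ)
        ![((⌈(F.totalDegree : ℝ) / α⌉₊ + i : ℕ) : ℝ), (j : ℝ)]) G =
        algebraMap ℚ ℝ (MvPolynomial.eval ![((⌈(F.totalDegree : ℝ) / α⌉₊ + i : ℕ) : ℚ), (j : ℚ)] G) := by
      rw [MvPolynomial.eval, MvPolynomial.coe_eval₂Hom, MvPolynomial.coe_eval₂Hom,
        MvPolynomial.eval₂_comp_left]
      congr 1
      ext k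
      fin_cases k <;> simp
    rw [h7, h5]
    simp

/-- clearing denominators -/
theorem exists_den (G : MvPolynomial (Fin 2) ℚ) :
    ∃ D : ℕ, 0 < D ∧ ∃ A B : MvPolynomial (Fin 2) ℕ, ∀ x y : ℕ,
      (D : ℚ) * MvPolynomial.eval ![(x : ℚ), (y : ℚ)] G =
        (MvPolynomial.eval ![x, y] A : ℕ) - (MvPolynomial.eval ![x, y] B : ℕ) := by
  induction G using MvPolynomial.induction_on with
  | C q =>
    refine ⟨q.den, q.den_pos, C q.num.toNat, C (-q.num).toNat, fun x y => ?_⟩
    have h1 : (q.den : ℚ) * q = q.num := by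
      rw [mul_comm]; exact Rat.mul_den_eq_num q
    have h2 : ((q.num.toNat : ℤ) : ℚ) - (((-q.num).toNat : ℤ) : ℚ) = q.num := by
      rw [← Int.cast_sub, Int.toNat_sub_toNat_neg]
    simp only [MvPolynomial.eval_C]
    rw [h1, ← h2]
    push_cast
    rfl
  | add G H hG hH =>
    obtain ⟨D, hD, A, B, h1⟩ := hG
    obtain ⟨D', hD', A', B', h2⟩ := hH
    refine ⟨D * D', Nat.mul_pos hD hD', C D' * A + C D * A', C D' * B + C D * B', fun x y => ?_⟩
    have e1 := h1 x y
    have e2 := h2 x y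
    simp only [map_add, map_mul, MvPolynomial.eval_C]
    push_cast
    linear_combination (D' : ℚ) * e1 + (D : ℚ) * e2
  | mul_X G i hG =>
    obtain ⟨D, hD, A, B, h1⟩ := hG
    refine ⟨D, hD, A * X i, B * X i, fun x y => ?_⟩
    have e1 := h1 x y
    have e2 : ((![x, y] i : ℕ) : ℚ) = ![(x : ℚ), (y : ℚ)] i := by
      fin_cases i <;> simp
    simp only [map_mul, MvPolynomial.eval_X]
    push_cast
    rw [e2, ← mul_assoc, e1]
    ring

theorem eval_modEq (A : MvPolynomial (Fin 2) ℕ) (D u v : ℕ) :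
    MvPolynomial.eval ![D * u, D * v] A ≡ MvPolynomial.eval ![0, 0] A [MOD D] := by
  induction A using MvPolynomial.induction_on with
  | C a => simp [Nat.ModEq.refl]
  | add A B hA hB => simpa using hA.add hB
  | mul_X A i hA =>
    have h1 : ![D * u, D * v] i ≡ ![0, 0] i [MOD D] := by
      fin_cases i <;> simp [Nat.ModEq]
    simpa using hA.mul h1


/-! ### asymptotics -/

open Filter Topology

theorem tendsto_top {α : ℝ} (F : MvPolynomial (Fin 2) ℝ) (x y : ℕ → ℕ)
    (hx : Tendsto (fun n => (x n : ℝ)) atTop atTop)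
    (hy : Tendsto (fun n => (y n : ℝ) / (x n : ℝ)) atTop (𝓝 α)) :
    Tendsto (fun n => MvPolynomial.eval ![(x n : ℝ), (y n : ℝ)] F / (x n : ℝ) ^ F.totalDegree)
      atTop (𝓝 ((PP72.formPoly F F.totalDegree).eval α)) := by
  set d := F.totalDegree with hd
  have h1 : (fun n => ∑ k ∈ Finset.range (d + 1),
      ((x n : ℝ) ^ k / (x n : ℝ) ^ d) * (PP72.formPoly F k).eval ((y n : ℝ) / (x n : ℝ))) =ᶠ[atTop]
      fun n => MvPolynomial.eval ![(x n : ℝ), (y n : ℝ)] F / (x n : ℝ) ^ d := by
    filter_upwards [hx.eventually_gt_atTop 0] with n hn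
    rw [← PP72.ev_formPoly, PP72.ev_eq (PP72.formPoly_natDegree F) hn.ne', Finset.sum_div]
    refine Finset.sum_congr rfl fun k _ => ?_
    ring
  have h2 : (PP72.formPoly F d).eval α = ∑ k ∈ Finset.range (d + 1),
      (if k = d then (1 : ℝ) else 0) * (PP72.formPoly F k).eval α := by
    rw [Finset.sum_eq_single d]
    · simp
    · intro k _ hk
      simp [hk]
    · intro h
      exact absurd (Finset.mem_range.2 (Nat.lt_succ_self d)) h
  rw [h2]
  refine Tendsto.congr' h1 (tendsto_finsetSum _ fun k hk => ?_)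
  have hk' : k ≤ d := Nat.lt_succ_iff.1 (Finset.mem_range.1 hk)
  refine Tendsto.mul ?_ (((PP72.formPoly F k).continuous.tendsto α).comp hy)
  split_ifs with hkd
  · subst hkd
    refine Tendsto.congr' ?_ tendsto_const_nhds
    filter_upwards [hx.eventually_gt_atTop 0] with n hn
    rw [div_self (pow_ne_zero _ hn.ne')]
  · have h3 : Tendsto (fun n => ((x n : ℝ) ^ (d - k))⁻¹) atTop (𝓝 0) :=
      ((tendsto_pow_atTop (by omega)).comp hx).inv_tendsto_atTop
    refine Tendsto.congr' ?_ h3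
    filter_upwards [hx.eventually_gt_atTop 0] with n hn
    have h4 : (x n : ℝ) ^ d = (x n : ℝ) ^ k * (x n : ℝ) ^ (d - k) := by
      rw [← pow_add, Nat.add_sub_cancel' hk']
    rw [h4, div_mul_eq_div_div, div_self (pow_ne_zero _ hn.ne'), one_div]

/-- if the top form vanishes at `(1, α)` then `α` is algebraic -/
theorem algebraic_of_root {α : ℝ} (G : MvPolynomial (Fin 2) ℚ) (F : MvPolynomial (Fin 2) ℝ)
    (hG : MvPolynomial.map (algebraMap ℚ ℝ) G = F) (hF : 0 < F.totalDegree)
    (h0 : (PP72.formPoly F F.totalDegree).eval α = 0) : IsAlgebraic ℚ α := by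
  set d := F.totalDegree with hd
  set p : Polynomial ℚ := ∑ i ∈ Finset.range (d + 1),
    Polynomial.C (G.coeff (Finsupp.single 0 (d - i) + Finsupp.single 1 i)) * Polynomial.X ^ i with hp
  have hmap : p.map (algebraMap ℚ ℝ) = PP72.formPoly F d := by
    ext i
    rw [hp, Polynomial.coeff_map, Polynomial.finsetSum_coeff]
    simp only [Polynomial.coeff_C_mul, Polynomial.coeff_X_pow, mul_ite, mul_one, mul_zero]
    rw [Finset.sum_ite_eq]
    split_ifs with hi
    · have hi' : i ≤ d := Nat.lt_succ_iff.1 (Finset.mem_range.1 hi)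
      have h1 := PP72.formPoly_coeff F (Finsupp.single 0 (d - i) + Finsupp.single 1 i)
      have e0 : (Finsupp.single (0 : Fin 2) (d - i) + Finsupp.single 1 i : Fin 2 →₀ ℕ) 0 = d - i := by
        simp
      have e1 : (Finsupp.single (0 : Fin 2) (d - i) + Finsupp.single 1 i : Fin 2 →₀ ℕ) 1 = i := by
        simp
      rw [e0, e1, Nat.sub_add_cancel hi'] at h1
      rw [h1, ← hG, MvPolynomial.coeff_map]
    · have hi' : d < i := by
        by_contra hcon
        exact hi (Finset.mem_range.2 (by omega))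
      rw [map_zero, Polynomial.coeff_eq_zero_of_natDegree_lt
        ((PP72.formPoly_natDegree F d).trans_lt hi')]
  have hp0 : p ≠ 0 := by
    intro h
    rw [h, Polynomial.map_zero] at hmap
    exact PP72.formPoly_lead_ne_zero F hF hmap.symm
  refine ⟨p, hp0, ?_⟩
  rw [Polynomial.aeval_def, Polynomial.eval₂_eq_eval_map, hmap, h0]

/-- **Slopes of sectors with an (almost) packing polynomial are algebraic or upper
semicomputable.** -/
theorem algebraic_or_re {α : ℝ} (hα : 0 < α) (F : MvPolynomial (Fin 2) ℝ) (n0 : ℕ)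
    (hval : ∀ x y : ℕ, (y : ℝ) ≤ α * x → ∃ n : ℕ, MvPolynomial.eval ![(x : ℝ), (y : ℝ)] F = n)
    (hinj : ∀ x y x' y' : ℕ, (y : ℝ) ≤ α * x → (y' : ℝ) ≤ α * x' →
      MvPolynomial.eval ![(x : ℝ), (y : ℝ)] F = MvPolynomial.eval ![(x' : ℝ), (y' : ℝ)] F →
      x = x' ∧ y = y')
    (hsurj : ∀ n : ℕ, n0 ≤ n → ∃ x y : ℕ, (y : ℝ) ≤ α * x ∧
      MvPolynomial.eval ![(x : ℝ), (y : ℝ)] F = n) :
    IsAlgebraic ℚ α ∨ REPred fun p : ℕ × ℕ => α * p.1 < p.2 := by
  classical
  obtain ⟨G, hG⟩ := exists_rat hα F hval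
  -- the degree is positive
  have hdeg : 0 < F.totalDegree := by
    rw [Nat.pos_iff_ne_zero]
    intro h0
    rw [MvPolynomial.totalDegree_eq_zero_iff_eq_C] at h0
    have h1 := hinj 0 0 1 0 (by simp) (by simp [hα.le]) (by rw [h0]; simp)
    exact absurd h1.1 (by norm_num)
  by_cases hc0 : (PP72.formPoly F F.totalDegree).eval α = 0
  · exact Or.inl (algebraic_of_root G F hG hdeg hc0)
  refine Or.inr ?_
  set d := F.totalDegree with hd
  set c := (PP72.formPoly F d).eval α with hc
  obtain ⟨D, hD, A, B, hAB⟩ := exists_den G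
  have hDr : (0 : ℝ) < D := by exact_mod_cast hD
  -- the values in terms of `A`, `B`
  have hev : ∀ x y : ℕ, (D : ℝ) * MvPolynomial.eval ![(x : ℝ), (y : ℝ)] F =
      (MvPolynomial.eval ![x, y] A : ℕ) - (MvPolynomial.eval ![x, y] B : ℕ) := by
    intro x y
    have h1 : MvPolynomial.eval ![(x : ℝ), (y : ℝ)] F =
        algebraMap ℚ ℝ (MvPolynomial.eval ![(x : ℚ), (y : ℚ)] G) := by
      rw [← hG, MvPolynomial.eval_map, MvPolynomial.eval, MvPolynomial.coe_eval₂Hom,
        MvPolynomial.eval₂_comp_left]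
      congr 1
      ext k
      fin_cases k <;> simp
    have h2 := congrArg (algebraMap ℚ ℝ) (hAB x y)
    rw [map_mul] at h2
    rw [h1]
    simpa using h2
  -- the floor sequence
  have hfl : ∀ n : ℕ, ((⌊α * (n + 1)⌋₊ : ℕ) : ℝ) ≤ α * (n + 1) := fun n =>
    Nat.floor_le (by positivity)
  have hfl' : ∀ n : ℕ, α * (n + 1) < ((⌊α * (n + 1)⌋₊ : ℕ) : ℝ) + 1 := fun n =>
    Nat.lt_floor_add_one _
  have hinv : Tendsto (fun n : ℕ => 1 / ((n : ℝ) + 1)) atTop (𝓝 0) :=
    tendsto_one_div_add_atTop_nhds_zero_nat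
  have hn1 : ∀ n : ℕ, (0 : ℝ) < (n : ℝ) + 1 := fun n => by positivity
  -- `c ≥ 0`
  have hcnn : 0 ≤ c := by
    have h1 := tendsto_top (α := α) F (fun n => n + 1) (fun n => ⌊α * (n + 1)⌋₊)
      (by
        refine tendsto_natCast_atTop_atTop.comp ?_
        exact tendsto_add_atTop_nat 1)
      (by
        have hlo : Tendsto (fun n : ℕ => α - 1 / ((n : ℝ) + 1)) atTop (𝓝 α) := by
          simpa using (tendsto_const_nhds (x := α)).sub hinv
        refine tendsto_of_tendsto_of_tendsto_of_le_of_le hlo tendsto_const_nhds ?_ ?_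
        · intro n
          have := hfl' n
          show α - 1 / ((n : ℝ) + 1) ≤ ((⌊α * (n + 1)⌋₊ : ℕ) : ℝ) / ((n + 1 : ℕ) : ℝ)
          push_cast
          rw [le_div_iff₀ (hn1 n), sub_mul, one_div_mul_cancel (hn1 n).ne']
          linarith
        · intro n
          show ((⌊α * (n + 1)⌋₊ : ℕ) : ℝ) / ((n + 1 : ℕ) : ℝ) ≤ α
          push_cast
          rw [div_le_iff₀ (hn1 n)]
          exact hfl n)
    refine ge_of_tendsto' h1 fun n => ?_
    have hin : ((⌊α * (n + 1)⌋₊ : ℕ) : ℝ) ≤ α * ((n + 1 : ℕ) : ℝ) := by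
      push_cast
      exact hfl n
    obtain ⟨m, hm⟩ := hval _ _ hin
    show 0 ≤ MvPolynomial.eval ![((n + 1 : ℕ) : ℝ), ((⌊α * (n + 1)⌋₊ : ℕ) : ℝ)] F /
      (((n + 1 : ℕ) : ℝ)) ^ F.totalDegree
    rw [hm]
    positivity
  have hcpos : 0 < c := lt_of_le_of_ne hcnn (Ne.symm hc0)
  -- points above the ray
  have htop : Tendsto (fun n : ℕ => MvPolynomial.eval
      ![((D * (n + 1) : ℕ) : ℝ), ((D * (⌊α * (n + 1)⌋₊ + 1) : ℕ) : ℝ)] F) atTop atTop := by
    have hxt : Tendsto (fun n : ℕ => ((D * (n + 1) : ℕ) : ℝ)) atTop atTop := by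
      refine tendsto_natCast_atTop_atTop.comp ?_
      exact (tendsto_add_atTop_nat 1).const_mul_atTop' hD
    have h1 := tendsto_top (α := α) F (fun n => D * (n + 1)) (fun n => D * (⌊α * (n + 1)⌋₊ + 1))
      hxt
      (by
        have hhi : Tendsto (fun n : ℕ => α + 1 / ((n : ℝ) + 1)) atTop (𝓝 α) := by
          simpa using (tendsto_const_nhds (x := α)).add hinv
        refine tendsto_of_tendsto_of_tendsto_of_le_of_le tendsto_const_nhds hhi ?_ ?_
        · intro n
          show α ≤ ((D * (⌊α * (n + 1)⌋₊ + 1) : ℕ) : ℝ) / ((D * (n + 1) : ℕ) : ℝ)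
          push_cast
          rw [mul_div_mul_left _ _ hDr.ne', le_div_iff₀ (hn1 n)]
          exact (hfl' n).le
        · intro n
          show ((D * (⌊α * (n + 1)⌋₊ + 1) : ℕ) : ℝ) / ((D * (n + 1) : ℕ) : ℝ) ≤
            α + 1 / ((n : ℝ) + 1)
          push_cast
          rw [mul_div_mul_left _ _ hDr.ne', div_le_iff₀ (hn1 n), add_mul,
            one_div_mul_cancel (hn1 n).ne']
          linarith [hfl n])
    have h2 : Tendsto (fun n : ℕ => (((D * (n + 1) : ℕ) : ℝ)) ^ d) atTop atTop :=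
      (tendsto_pow_atTop hdeg.ne').comp hxt
    have h3 := h1.pos_mul_atTop hcpos h2
    refine h3.congr' ?_
    filter_upwards [hxt.eventually_gt_atTop 0] with n hn
    rw [← hd, div_mul_cancel₀]
    exact (pow_pos hn _).ne'
  refine (rePred_test A B).of_eq fun p => ?_
  obtain ⟨a, b⟩ := p
  -- equality of the values of `F` in terms of `A`, `B`
  have hiff : ∀ x y x' y' : ℕ,
      (MvPolynomial.eval ![x, y] A + MvPolynomial.eval ![x', y'] B =
        MvPolynomial.eval ![x', y'] A + MvPolynomial.eval ![x, y] B ↔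
      MvPolynomial.eval ![(x : ℝ), (y : ℝ)] F = MvPolynomial.eval ![(x' : ℝ), (y' : ℝ)] F) := by
    intro x y x' y'
    have e1 := hev x y
    have e2 := hev x' y'
    constructor
    · intro h
      have h' : ((MvPolynomial.eval ![x, y] A : ℕ) : ℝ) + (MvPolynomial.eval ![x', y'] B : ℕ) =
        (MvPolynomial.eval ![x', y'] A : ℕ) + (MvPolynomial.eval ![x, y] B : ℕ) := by
        exact_mod_cast h
      refine mul_left_cancel₀ hDr.ne' ?_
      linarith
    · intro h
      rw [h] at e1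
      have h' : ((MvPolynomial.eval ![x, y] A : ℕ) : ℝ) + (MvPolynomial.eval ![x', y'] B : ℕ) =
        (MvPolynomial.eval ![x', y'] A : ℕ) + (MvPolynomial.eval ![x, y] B : ℕ) := by
        linarith
      exact_mod_cast h'
  constructor
  · rintro ⟨⟨P, Q⟩, ht⟩
    rcases ht with ⟨h1, h2⟩ | ⟨h1, h2, h3, h4, h5⟩
    · have h1' : a = 0 := h1
      have h2' : 0 < b := h2
      show α * (a : ℝ) < (b : ℝ)
      rw [h1']
      have : (0 : ℝ) < b := by exact_mod_cast h2'
      simpa using this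
    · have key : ∀ R : ℕ × ℕ, R.2 * a ≤ b * R.1 → ¬ ((R.2 : ℝ) ≤ α * R.1) →
          α * (a : ℝ) < (b : ℝ) := by
        intro R hR hRn
        rw [not_le] at hRn
        have ha : (0 : ℝ) < a := by exact_mod_cast h1
        have hR' : (R.2 : ℝ) * a ≤ b * R.1 := by exact_mod_cast hR
        have h6 : α * (a : ℝ) * R.1 < b * R.1 := by
          calc α * (a : ℝ) * R.1 = α * R.1 * a := by ring
            _ < R.2 * a := mul_lt_mul_of_pos_right hRn ha
            _ ≤ _ := hR'
        exact lt_of_mul_lt_mul_right h6 (Nat.cast_nonneg _)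
      by_cases hP : (P.2 : ℝ) ≤ α * P.1
      · by_cases hQ : (Q.2 : ℝ) ≤ α * Q.1
        · exfalso
          have h6 := (hiff P.1 P.2 Q.1 Q.2).1 h5
          have h7 := hinj _ _ _ _ hP hQ h6
          exact h2 (Prod.ext h7.1 h7.2)
        · exact key Q h4 hQ
      · exact key P h3 hP
  · intro hab
    have hab' : α * (a : ℝ) < (b : ℝ) := hab
    rcases Nat.eq_zero_or_pos a with ha | ha
    · refine ⟨((0, 0), (0, 0)), Or.inl ⟨ha, ?_⟩⟩
      subst ha
      have : (0 : ℝ) < b := by simpa using hab'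
      exact_mod_cast this
    · -- a point above the ray
      have har : (0 : ℝ) < a := by exact_mod_cast ha
      have hev1 : ∀ᶠ n : ℕ in atTop, (a : ℝ) / (b - α * a) ≤ (n : ℝ) + 1 := by
        have : Tendsto (fun n : ℕ => (n : ℝ) + 1) atTop atTop :=
          tendsto_atTop_add_const_right _ _ tendsto_natCast_atTop_atTop
        exact this.eventually_ge_atTop _
      obtain ⟨n, hn1', hn2⟩ := (hev1.and (htop.eventually_ge_atTop (n0 : ℝ))).exists
      set u := D * (n + 1) with hu
      set v := D * (⌊α * (n + 1)⌋₊ + 1) with hv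
      -- the value is a natural number
      have hmod : (MvPolynomial.eval ![u, v] B) ≡ (MvPolynomial.eval ![u, v] A) [MOD D] := by
        obtain ⟨m, hm⟩ := hval 0 0 (by simp)
        have e0 := hev 0 0
        rw [hm] at e0
        have e1 : MvPolynomial.eval ![0, 0] A = MvPolynomial.eval ![0, 0] B + D * m := by
          have : ((MvPolynomial.eval ![0, 0] A : ℕ) : ℝ) =
            ((MvPolynomial.eval ![0, 0] B + D * m : ℕ) : ℝ) := by
            push_cast
            linarith
          exact_mod_cast this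
        have e2 : (MvPolynomial.eval ![0, 0] A) ≡ (MvPolynomial.eval ![0, 0] B) [MOD D] := by
          rw [e1]
          simp [Nat.ModEq]
        exact (eval_modEq B D _ _).trans (e2.symm.trans (eval_modEq A D _ _).symm)
      have hpos : (0 : ℝ) ≤ MvPolynomial.eval ![(u : ℝ), (v : ℝ)] F :=
        (Nat.cast_nonneg n0).trans hn2
      have hle : MvPolynomial.eval ![u, v] B ≤ MvPolynomial.eval ![u, v] A := by
        have e1 := hev u v
        have : ((MvPolynomial.eval ![u, v] B : ℕ) : ℝ) ≤ (MvPolynomial.eval ![u, v] A : ℕ) := by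
          nlinarith
        exact_mod_cast this
      obtain ⟨k, hk⟩ := (Nat.modEq_iff_dvd' hle).1 hmod
      have hk' : MvPolynomial.eval ![(u : ℝ), (v : ℝ)] F = k := by
        have e1 := hev u v
        have e2 : MvPolynomial.eval ![u, v] A = MvPolynomial.eval ![u, v] B + D * k := by omega
        rw [e2] at e1
        push_cast at e1
        refine mul_left_cancel₀ hDr.ne' ?_
        linarith
      have hk0 : n0 ≤ k := by
        rw [hk'] at hn2
        exact_mod_cast hn2
      obtain ⟨x, y, hxy, hxyk⟩ := hsurj k hk0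
      -- slopes
      have hnot : ¬ ((v : ℝ) ≤ α * u) := by
        rw [not_le, hu, hv]
        push_cast
        have := hfl' n
        nlinarith
      refine ⟨((u, v), (x, y)), Or.inr ⟨ha, ?_, ?_, ?_, ?_⟩⟩
      · intro heq
        have h1 : u = x := congrArg Prod.fst heq
        have h2 : v = y := congrArg Prod.snd heq
        rw [← h1, ← h2] at hxy
        exact hnot hxy
      · show v * a ≤ b * u
        have h1 : (a : ℝ) ≤ ((n : ℝ) + 1) * (b - α * a) := by
          rwa [div_le_iff₀ (by linarith)] at hn1'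
        have h2 := hfl n
        have : ((v * a : ℕ) : ℝ) ≤ ((b * u : ℕ) : ℝ) := by
          rw [hu, hv]
          push_cast
          have h3 : (((⌊α * (n + 1)⌋₊ : ℕ) : ℝ) + 1) * a ≤ b * (n + 1) := by
            nlinarith
          calc (D : ℝ) * (((⌊α * (n + 1)⌋₊ : ℕ) : ℝ) + 1) * a
              = D * ((((⌊α * (n + 1)⌋₊ : ℕ) : ℝ) + 1) * a) := by ring
            _ ≤ D * (b * (n + 1)) := mul_le_mul_of_nonneg_left h3 hDr.le
            _ = _ := by ring
        exact_mod_cast this
      · show y * a ≤ b * x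
        have : ((y * a : ℕ) : ℝ) ≤ ((b * x : ℕ) : ℝ) := by
          push_cast
          calc (y : ℝ) * a ≤ α * x * a := mul_le_mul_of_nonneg_right hxy har.le
            _ = α * a * x := by ring
            _ ≤ b * x := mul_le_mul_of_nonneg_right hab'.le (Nat.cast_nonneg _)
        exact_mod_cast this
      · exact (hiff u v x y).2 (by rw [hk', hxyk])

end PK5
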